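import Pool.Agent.TH806.N4.Defs2

set_option autoImplicit false

/-!
Assembly of the twisted fourth moment: algebra and auxiliary facts.
-/

namespace Pool.Agent.TH817.N4_ASM

open Finset Filter Topology MeasureTheory Complex MonoidAlgebra
open Pool.Agent.W184.NZ Pool.Agent.TH806 Pool.Agent.TH806.N4
open Pool.Agent.H306R2.SM (om cl Yf)
open Pool.Agent.H262R4.TM (Rng Ck)
open Pool.Agent.H448R2.GC (cu cs ker XX)

noncomputable section

/-- the quadratic expression approximating the fourth power -/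
def PQ (z a1 a2 : ℂ) : ℝ :=
  2 * ((starRingEnd ℂ) z ^ 2 * a1 ^ 2).re + ‖z‖ ^ 2 * (2 * ‖a2‖ ^ 2 - ‖a2 - a1‖ ^ 2)

/-- the identity -/
lemma ident {z a1 a2 e χ : ℂ} (h : z = a1 + χ * (starRingEnd ℂ) a2 + e) (hχ : χ * (starRingEnd ℂ) z = z) :
    |PQ z a1 a2 - ‖z‖ ^ 4| ≤ ‖z‖ ^ 2 * (5 * ‖e‖ ^ 2 + 6 * (‖a2‖ * ‖e‖) + 2 * (‖a1‖ * ‖e‖)) := by
  set p := a1 * (starRingEnd ℂ) z with hp
  set q := a2 * (starRingEnd ℂ) z with hq
  set ε := e * (starRingEnd ℂ) z with hε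
  have hnz : ‖(starRingEnd ℂ) z‖ = ‖z‖ := RCLike.norm_conj z
  have np : ‖p‖ = ‖a1‖ * ‖z‖ := by rw [hp, norm_mul, hnz]
  have nq : ‖q‖ = ‖a2‖ * ‖z‖ := by rw [hq, norm_mul, hnz]
  have nε : ‖ε‖ = ‖e‖ * ‖z‖ := by rw [hε, norm_mul, hnz]
  have nqp : ‖q - p‖ = ‖a2 - a1‖ * ‖z‖ := by rw [hq, hp, ← sub_mul, norm_mul, hnz]
  have key : ((‖z‖ ^ 2 : ℝ) : ℂ) = p + (starRingEnd ℂ) q + ε := by
    have h1 : z * (starRingEnd ℂ) z = ((‖z‖ ^ 2 : ℝ) : ℂ) := by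
      rw [Complex.mul_conj, Complex.normSq_eq_norm_sq]
    rw [← h1, hp, hq, hε, map_mul, Complex.conj_conj]
    calc z * (starRingEnd ℂ) z = (a1 + χ * (starRingEnd ℂ) a2 + e) * (starRingEnd ℂ) z := by rw [← h]
      _ = a1 * (starRingEnd ℂ) z + (starRingEnd ℂ) a2 * (χ * (starRingEnd ℂ) z) + e * (starRingEnd ℂ) z := by ring
      _ = _ := by rw [hχ]
  set N := ‖z‖ ^ 2 with hN
  have k1 : N = p.re + q.re + ε.re := by
    have := congrArg Complex.re key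
    simpa using this
  have k2 : 0 = p.im - q.im + ε.im := by
    have := congrArg Complex.im key
    simp at this
    linarith
  have e1 : PQ z a1 a2 - ‖z‖ ^ 4 = 2 * (p ^ 2).re + 2 * ‖q‖ ^ 2 - ‖q - p‖ ^ 2 - N ^ 2 := by
    unfold PQ
    have : (starRingEnd ℂ) z ^ 2 * a1 ^ 2 = p ^ 2 := by rw [hp]; ring
    rw [this, nq, nqp, hN]
    ring
  have sq : ∀ w : ℂ, ‖w‖ ^ 2 = w.re ^ 2 + w.im ^ 2 := fun w => by
    rw [← Complex.normSq_eq_norm_sq, Complex.normSq_apply]; ring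
  have e2 : 2 * (p ^ 2).re + 2 * ‖q‖ ^ 2 - ‖q - p‖ ^ 2 - N ^ 2 =
      -(2 * N * ε.re) + 4 * (q.im * ε.im) + ε.re ^ 2 - 3 * ε.im ^ 2 := by
    rw [sq q, sq (q - p), Complex.sub_re, Complex.sub_im, pow_two p, Complex.mul_re]
    have hp1 : p.re = N - q.re - ε.re := by linarith
    have hp2 : p.im = q.im - ε.im := by linarith
    rw [hp1, hp2]
    ring
  have n0 : 0 ≤ N := by rw [hN]; positivity
  have nN : N ≤ ‖p‖ + ‖q‖ + ‖ε‖ := by
    have h1 : ‖((N : ℝ) : ℂ)‖ = N := by rw [Complex.norm_real, Real.norm_of_nonneg n0]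
    rw [← h1, key]
    refine (norm_add_le _ _).trans (add_le_add_left ((norm_add_le _ _).trans ?_) _)
    rw [RCLike.norm_conj]
  have a1' := Complex.abs_re_le_norm ε
  have a2' := Complex.abs_im_le_norm ε
  have a3' := Complex.abs_im_le_norm q
  have b1 : |2 * N * ε.re| ≤ 2 * N * ‖ε‖ := by
    rw [abs_mul, abs_of_nonneg (by positivity : (0:ℝ) ≤ 2 * N)]
    gcongr
  have b2 : |q.im * ε.im| ≤ ‖q‖ * ‖ε‖ := by
    rw [abs_mul]; gcongr
  have b3 : ε.re ^ 2 + ε.im ^ 2 = ‖ε‖ ^ 2 := (sq ε).symm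
  have b4 : N * ‖ε‖ ≤ (‖p‖ + ‖q‖ + ‖ε‖) * ‖ε‖ := mul_le_mul_of_nonneg_right nN (norm_nonneg _)
  have hfin : |PQ z a1 a2 - ‖z‖ ^ 4| ≤ 5 * ‖ε‖ ^ 2 + 6 * (‖q‖ * ‖ε‖) + 2 * (‖p‖ * ‖ε‖) := by
    rw [e1, e2]
    obtain ⟨b11, b12⟩ := abs_le.mp b1
    obtain ⟨b21, b22⟩ := abs_le.mp b2
    have s1 := sq_nonneg ε.re
    have s2 := sq_nonneg ε.im
    rw [abs_le]
    constructor <;> nlinarith
  refine hfin.trans (le_of_eq ?_)
  rw [nε, nq, np, hN]
  ring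

/-- a crude bound -/
lemma crude {z a1 a2 : ℂ} {B : ℝ} (h1 : ‖a1‖ ≤ B) (h2 : ‖a2‖ ≤ B) : |PQ z a1 a2| ≤ 8 * B ^ 2 * ‖z‖ ^ 2 := by
  have hB : 0 ≤ B := (norm_nonneg _).trans h1
  unfold PQ
  have c1 : |((starRingEnd ℂ) z ^ 2 * a1 ^ 2).re| ≤ ‖z‖ ^ 2 * B ^ 2 := by
    refine (Complex.abs_re_le_norm _).trans ?_
    rw [norm_mul, norm_pow, norm_pow, RCLike.norm_conj]
    gcongr
  have c2 : ‖a2‖ ^ 2 ≤ B ^ 2 := by gcongr
  have c3 : ‖a2 - a1‖ ^ 2 ≤ (2 * B) ^ 2 := by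
    have := norm_sub_le a2 a1
    gcongr
    linarith
  have c4 : 0 ≤ ‖a2‖ ^ 2 := by positivity
  have c5 : 0 ≤ ‖a2 - a1‖ ^ 2 := by positivity
  have c6 : 0 ≤ ‖z‖ ^ 2 := by positivity
  have c7 : |2 * ‖a2‖ ^ 2 - ‖a2 - a1‖ ^ 2| ≤ 6 * B ^ 2 := by
    rw [abs_le]; constructor <;> nlinarith
  calc _ ≤ |2 * ((starRingEnd ℂ) z ^ 2 * a1 ^ 2).re| + |‖z‖ ^ 2 * (2 * ‖a2‖ ^ 2 - ‖a2 - a1‖ ^ 2)| := abs_add_le _ _
    _ ≤ 2 * (‖z‖ ^ 2 * B ^ 2) + ‖z‖ ^ 2 * (6 * B ^ 2) := by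
        rw [abs_mul, abs_mul, abs_of_nonneg c6, abs_of_pos (by norm_num : (0:ℝ) < 2)]
        gcongr
    _ = _ := by ring

lemma amgm {e a1 a2 L : ℝ} (hL : 1 ≤ L) :
    5 * e ^ 2 + 6 * (a2 * e) + 2 * (a1 * e) ≤ 9 * L * e ^ 2 + 3 / L * a2 ^ 2 + 3 / L * a1 ^ 2 := by
  have hL0 : 0 < L := by linarith
  have h1 : 2 * (a2 * e) ≤ 1 / L * a2 ^ 2 + L * e ^ 2 := by
    have h : 0 ≤ (a2 - L * e) ^ 2 / L := by positivity
    have : (a2 - L * e) ^ 2 / L = 1 / L * a2 ^ 2 + L * e ^ 2 - 2 * (a2 * e) := by field_simp; ring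
    linarith
  have h2 : 2 * (a1 * e) ≤ 1 / L * a1 ^ 2 + L * e ^ 2 := by
    have h : 0 ≤ (a1 - L * e) ^ 2 / L := by positivity
    have : (a1 - L * e) ^ 2 / L = 1 / L * a1 ^ 2 + L * e ^ 2 - 2 * (a1 * e) := by field_simp; ring
    linarith
  have h3 : 0 ≤ 1 / L * a1 ^ 2 := by positivity
  have h4 : e ^ 2 ≤ L * e ^ 2 := by nlinarith [sq_nonneg e]
  have e3 : 3 / L * a2 ^ 2 = 3 * (1 / L * a2 ^ 2) := by ring
  have e4 : 3 / L * a1 ^ 2 = 3 * (1 / L * a1 ^ 2) := by ring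
  rw [e3, e4]
  linarith

/-! ### the multiplier -/

section
variable {c y : ℝ} {J Rs : ℕ} {a : ℝ} {g : ℕ → DA} {φ : ℕ → ℂ → ℝ} {G : DA}

lemma mg_ev (h : MG c y J Rs a g φ G) (t : ℝ) :
    ev t G = ((∏ i ∈ range J, φ i (PI (II y i) (1 / 2 + t * Complex.I)) : ℝ) : ℂ) := by
  rw [h.eq, map_prod]
  push_cast
  exact prod_congr rfl fun i _ => (h.blk i).evl t

lemma mg_nn (h : MG c y J Rs a g φ G) (t : ℝ) : 0 ≤ (ev t G).re := by
  rw [mg_ev h, Complex.ofReal_re]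
  exact prod_nonneg fun i _ => (h.blk i).nn _

lemma mg_cont (h : MG c y J Rs a g φ G) : Continuous fun t => (ev t G).re := ev_re_cont h.bd

lemma mg_le (h : MG c y J Rs a g φ G) (t : ℝ) : (ev t G).re ≤ Real.exp (Real.log y * (320 * ((Rs:ℝ) + 1))) :=
  (le_abs_self _).trans ((ev_re_le h.bd t).trans h.l1)

lemma ev_one_re (t : ℝ) : (ev t (1 : DA)).re = 1 := by rw [map_one, Complex.one_re]

lemma EV_zero (J : ℕ) (y : ℝ) : EV J y 0 = 1 := by unfold EV; simp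

lemma EV_pos (J : ℕ) (y a : ℝ) : 0 < EV J y a := Real.exp_pos _

lemma EV_ge (h : BL c y J) {L : ℝ} (ha : |a| ≤ 1 / 16) (_hL : 1 ≤ L) (hyL : Real.log y ≤ L) :
    1 ≤ Real.exp c * L * EV J y a := by
  obtain ⟨hα1, hα2⟩ := abs_le.mp ha
  have hy := h.y1
  have hly : 1 < Real.log y := by
    have := Real.exp_one_lt_d9
    rw [Real.lt_log_iff_exp_lt (by linarith)]; linarith
  have hV0 : 0 ≤ ∑ i ∈ range J, vI (II y i) := sum_nonneg fun _ _ => vI_nonneg _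
  have hV1 : ∑ i ∈ range J, vI (II y i) ≤ Real.log L + c := by
    have h1 := (abs_le.mp h.vv).2
    have h2 : Real.log (Real.log y) ≤ Real.log L := Real.log_le_log (by linarith) hyL
    linarith
  have h3 : -1 ≤ 4 * a + a ^ 2 := by nlinarith
  have e : Real.exp c * L = Real.exp (c + Real.log L) := by
    rw [Real.exp_add, Real.exp_log (by linarith)]
  rw [e]
  unfold EV
  rw [← Real.exp_add]
  apply Real.one_le_exp
  nlinarith

lemma log_y_pos (h : BL c y J) : 1 < Real.log y := by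
  have hy := h.y1
  have := Real.exp_one_lt_d9
  rw [Real.lt_log_iff_exp_lt (by linarith)]; linarith

end

/-! ### smoothed sums with a fixed number of terms -/

/-- the smoothed sum with a fixed number of terms -/
def cf (N k : ℕ) (c D : ℝ) (s : ℂ) : ℂ := ∑ m ∈ Icc 1 N, (cu k c (Real.log m - D) : ℂ) * (m : ℂ) ^ (-s)

lemma cf_eq {k N : ℕ} {c D : ℝ} (hc : 0 < c) (hN : ⌊Real.exp (D + k * c)⌋₊ ≤ N) (s : ℂ) :
    cs k c D s = cf N k c D s := by
  unfold cs cf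
  refine sum_subset (Icc_subset_Icc le_rfl hN) fun m hm hm' => ?_
  rw [mem_Icc] at hm
  rw [cu_out hc (by omega) hm', Complex.ofReal_zero, zero_mul]

lemma cf_bd {k N : ℕ} {c : ℝ} (hc : 0 < c) (D : ℝ) (t : ℝ) : ‖cf N k c D (cl t)‖ ≤ N := by
  unfold cf
  refine (norm_sum_le _ _).trans ?_
  have h : ∀ m ∈ Icc 1 N, ‖(cu k c (Real.log m - D) : ℂ) * (m : ℂ) ^ (-(cl t))‖ ≤ 1 := by
    intro m hm
    rw [mem_Icc] at hm
    have hm' : 0 < m := by omega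
    rw [norm_mul, Complex.norm_real, Real.norm_eq_abs,
      abs_of_nonneg (Pool.Agent.H448R2.GC.cu_nonneg k c _ hc), Complex.norm_natCast_cpow_of_pos hm']
    have h1 := Pool.Agent.H448R2.GC.cu_le_one k c (Real.log m - D) hc
    have h2 : (m : ℝ) ^ ((-(cl t)).re) ≤ 1 := by
      refine Real.rpow_le_one_of_one_le_of_nonpos (by exact_mod_cast hm') ?_
      unfold cl
      simp
    calc _ ≤ 1 * 1 := mul_le_mul h1 h2 (by positivity) zero_le_one
      _ = 1 := one_mul 1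
  refine (sum_le_card_nsmul _ _ _ h).trans ?_
  simp

lemma cl_cont : Continuous cl := by unfold cl; fun_prop

lemma cf_cont {k N : ℕ} (hk : 1 ≤ k) {c : ℝ} (hc : 0 < c) {D : ℝ → ℝ} (hD : Continuous D) :
    Continuous fun p : ℝ × ℝ => cf N k c (D p.2) (cl p.1) := by
  obtain ⟨k, rfl⟩ : ∃ k', k = k' + 1 := ⟨k - 1, by omega⟩
  unfold cf
  refine continuous_finsetSum _ fun m hm => ?_
  rw [mem_Icc] at hm
  have hm0 : (m : ℂ) ≠ 0 := by exact_mod_cast (by omega : m ≠ 0)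
  refine Continuous.mul ?_ ?_
  · exact Complex.continuous_ofReal.comp ((Pool.Agent.H448R2.GC.cu_cont k c hc).comp
      (continuous_const.sub (hD.comp continuous_snd)))
  · exact Continuous.const_cpow ((cl_cont.comp continuous_fst).neg) (Or.inl hm0)

lemma cf_cont1 (N k : ℕ) (c D : ℝ) : Continuous fun t : ℝ => cf N k c D (cl t) := by
  unfold cf
  refine continuous_finsetSum _ fun m hm => continuous_const.mul ?_
  rw [mem_Icc] at hm
  have hm0 : (m : ℂ) ≠ 0 := by exact_mod_cast (by omega : m ≠ 0)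
  exact Continuous.const_cpow cl_cont.neg (Or.inl hm0)

/-- the average over `u` -/
lemma eint {k κ : ℕ} {T c D B BM : ℝ} {Gf : ℝ → ℝ} (hk : 1 ≤ k) (hc : 0 < c) (hT : 0 < T) (hκ : 1 ≤ κ)
    (hG0 : ∀ t, 0 ≤ Gf t) (hGB : ∀ t, Gf t ≤ BM) (hGc : Continuous Gf)
    (hb : ∀ u : ℝ, -3 ≤ u → u ≤ 3 → ∫ t in Set.Ioi (0:ℝ), wz κ T t * (‖cs k c (D + u + c) (cl t)‖ ^ 2 * Gf t) ≤ B)
    (hb' : ∀ u : ℝ, -3 ≤ u → u ≤ 3 → ∫ t in Set.Ioi (0:ℝ), wz κ T t * (‖cs k c (D + u) (cl t)‖ ^ 2 * Gf t) ≤ B) :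
    IntegrableOn (fun t => wz κ T t * ((∫ u in (-3:ℝ)..3,
      (‖cs k c (D + u + c) (cl t)‖ ^ 2 + ‖cs k c (D + u) (cl t)‖ ^ 2)) * Gf t)) (Set.Ioi 0) ∧
    ∫ t in Set.Ioi (0:ℝ), wz κ T t * ((∫ u in (-3:ℝ)..3,
      (‖cs k c (D + u + c) (cl t)‖ ^ 2 + ‖cs k c (D + u) (cl t)‖ ^ 2)) * Gf t) ≤ 12 * B := by
  have hκ0 : (0:ℝ) < κ := by exact_mod_cast hκ
  have hδ : 0 < (κ:ℝ) / T := by positivity
  set N : ℕ := ⌊Real.exp (D + 3 + c + k * c)⌋₊ with hN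
  set Q : ℝ → ℝ → ℝ := fun t u => ‖cf N k c (D + u + c) (cl t)‖ ^ 2 + ‖cf N k c (D + u) (cl t)‖ ^ 2 with hQ
  have q1 : ∀ u : ℝ, u ≤ 3 → ∀ t, cs k c (D + u + c) (cl t) = cf N k c (D + u + c) (cl t) := by
    intro u hu t
    refine cf_eq hc (Nat.floor_le_floor (Real.exp_le_exp.mpr ?_)) _
    linarith
  have q2 : ∀ u : ℝ, u ≤ 3 → ∀ t, cs k c (D + u) (cl t) = cf N k c (D + u) (cl t) := by
    intro u hu t
    refine cf_eq hc (Nat.floor_le_floor (Real.exp_le_exp.mpr ?_)) _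
    linarith
  set gi : ℝ → ℝ := Set.indicator (Set.Ioc (-3:ℝ) 3) (fun _ => (1:ℝ)) with hgi
  have hQi : ∀ t, (∫ u in (-3:ℝ)..3, (‖cs k c (D + u + c) (cl t)‖ ^ 2 + ‖cs k c (D + u) (cl t)‖ ^ 2)) =
      ∫ y, Q t y * gi y := by
    intro t
    rw [intervalIntegral.integral_of_le (by norm_num), ← integral_indicator measurableSet_Ioc]
    refine integral_congr_ae (Eventually.of_forall fun u => ?_)
    simp only [hQ, hgi]
    by_cases hu : u ∈ Set.Ioc (-3:ℝ) 3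
    · rw [Set.indicator_of_mem hu, Set.indicator_of_mem hu, q1 u hu.2, q2 u hu.2, mul_one]
    · rw [Set.indicator_of_notMem hu, Set.indicator_of_notMem hu, mul_zero]
  have hΦi : Integrable (fun t => wz κ T t) (volume.restrict (Set.Ioi 0)) := by
    have := wz_int κ hδ (f := fun _ => 1) (C := 1) continuous_const (fun t => by simp)
    simp only [mul_one] at this
    exact this
  have hΦ0 : ∀ t ∈ Set.Ioi (0:ℝ), 0 ≤ wz κ T t := fun t ht => wz_nonneg κ hT (le_of_lt ht)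
  have hgint : Integrable gi := by
    rw [hgi, integrable_indicator_iff measurableSet_Ioc]
    exact integrableOn_const (by simp)
  have hQc : Continuous (Function.uncurry Q) := by
    have c1 : Continuous fun p : ℝ × ℝ => cf N k c (D + p.2 + c) (cl p.1) :=
      cf_cont hk hc (D := fun u => D + u + c) (by fun_prop)
    have c2 : Continuous fun p : ℝ × ℝ => cf N k c (D + p.2) (cl p.1) :=
      cf_cont hk hc (D := fun u => D + u) (by fun_prop)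
    exact (c1.norm.pow 2).add (c2.norm.pow 2)
  have hQ0 : ∀ t y, 0 ≤ Q t y := fun t y => by simp only [hQ]; positivity
  have hQB : ∀ t y, Q t y ≤ 2 * (N:ℝ) ^ 2 := by
    intro t y
    have b1 := pow_le_pow_left₀ (norm_nonneg _) (cf_bd (k := k) (N := N) hc (D + y + c) t) 2
    have b2 := pow_le_pow_left₀ (norm_nonneg _) (cf_bd (k := k) (N := N) hc (D + y) t) 2
    simp only [hQ]
    linarith
  obtain ⟨hI, hE⟩ := dual_int' (μ := volume.restrict (Set.Ioi 0)) gi Gf (fun t => wz κ T t) Q BM (2 * (N:ℝ) ^ 2)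
    hgint hΦi hG0 hGB hGc hQ0 hQB hQc
  simp_rw [hQi]
  refine ⟨hI, ?_⟩
  rw [hE]
  have hBM : 0 ≤ BM := (hG0 0).trans (hGB 0)
  have i1 : ∀ u, IntegrableOn (fun t => wz κ T t * (‖cf N k c (D + u + c) (cl t)‖ ^ 2 * Gf t)) (Set.Ioi 0) := by
    intro u
    have c1 : Continuous fun t : ℝ => cf N k c (D + u + c) (cl t) := cf_cont1 _ _ _ _
    refine wz_int κ hδ (C := (N:ℝ) ^ 2 * BM) ((c1.norm.pow 2).mul hGc) fun t => ?_
    rw [abs_of_nonneg (mul_nonneg (by positivity) (hG0 t))]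
    exact mul_le_mul (pow_le_pow_left₀ (norm_nonneg _) (cf_bd hc _ t) 2) (hGB t) (hG0 t) (by positivity)
  have i2 : ∀ u, IntegrableOn (fun t => wz κ T t * (‖cf N k c (D + u) (cl t)‖ ^ 2 * Gf t)) (Set.Ioi 0) := by
    intro u
    have c1 : Continuous fun t : ℝ => cf N k c (D + u) (cl t) := cf_cont1 _ _ _ _
    refine wz_int κ hδ (C := (N:ℝ) ^ 2 * BM) ((c1.norm.pow 2).mul hGc) fun t => ?_
    rw [abs_of_nonneg (mul_nonneg (by positivity) (hG0 t))]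
    exact mul_le_mul (pow_le_pow_left₀ (norm_nonneg _) (cf_bd hc _ t) 2) (hGB t) (hG0 t) (by positivity)
  have hpt : ∀ u, gi u * (∫ t in Set.Ioi (0:ℝ), wz κ T t * (Q t u * Gf t)) ≤ 2 * B * gi u := by
    intro u
    by_cases hu : u ∈ Set.Ioc (-3:ℝ) 3
    · simp only [hgi]
      rw [Set.indicator_of_mem hu, one_mul, mul_one]
      have h1 := hb u hu.1.le hu.2
      have h2 := hb' u hu.1.le hu.2
      simp_rw [q1 u hu.2] at h1
      simp_rw [q2 u hu.2] at h2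
      have e : ∀ t, wz κ T t * (Q t u * Gf t) = wz κ T t * (‖cf N k c (D + u + c) (cl t)‖ ^ 2 * Gf t) +
          wz κ T t * (‖cf N k c (D + u) (cl t)‖ ^ 2 * Gf t) := fun t => by simp only [hQ]; ring
      simp_rw [e]
      rw [integral_add (i1 u) (i2 u)]
      linarith
    · simp only [hgi]
      rw [Set.indicator_of_notMem hu, zero_mul, mul_zero]
  have h0 : 0 ≤ᵐ[volume] fun u => gi u * (∫ t in Set.Ioi (0:ℝ), wz κ T t * (Q t u * Gf t)) := by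
    refine Eventually.of_forall fun u => mul_nonneg ?_ (setIntegral_nonneg measurableSet_Ioi fun t ht =>
      mul_nonneg (hΦ0 t ht) (mul_nonneg (hQ0 _ _) (hG0 _)))
    exact Set.indicator_nonneg (fun _ _ => zero_le_one) _
  refine (integral_mono_of_nonneg h0 (hgint.const_mul _) (Eventually.of_forall hpt)).trans ?_
  rw [integral_const_mul, hgi, integral_indicator measurableSet_Ioc]
  have : ∫ _ in Set.Ioc (-3:ℝ) 3, (1:ℝ) = 6 := by
    rw [← intervalIntegral.integral_of_le (by norm_num)]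
    norm_num
  rw [this]
  linarith

/-! ### differences of the kernel representations -/

lemma krep_int {L : ℝ} (hL : 1 ≤ L) {k : ℕ} (hk : 1 ≤ k) {CK : ℝ} {K : ℝ → ℂ} (hKc : Continuous K)
    (hKb : ∀ v, ‖K v‖ ≤ CK * (L / (1 + L * |v|) ^ (k + 1))) {N : ℕ} (θ : Ix N → ℝ) :
    Integrable fun v : ℝ => K v * ZT (wp (1 / L) v) θ := by
  have hx : 0 < 1 / L := by positivity
  obtain ⟨B0, hB00, hB0⟩ := ZT_bdd (N := N) (σ := 1 / 2 + 1 / L) (by positivity)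
  have hZc : Continuous fun v : ℝ => ZT (wp (1 / L) v) θ := by
    have h1 := (ZT_cont (N := N) (w := ((1 / 2 + 1 / L : ℝ) : ℂ)) (by rw [Complex.ofReal_re]; positivity)).comp
      (Continuous.prodMk continuous_id (continuous_const (y := θ)))
    exact h1
  have hKi : Integrable K := by
    refine Integrable.mono' ((Pool.Agent.H448R2.GC.scale_integrable L (k + 1) hL (by omega)).const_mul CK)
      hKc.aestronglyMeasurable (Eventually.of_forall hKb)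
  refine hKi.mul_bdd (c := B0) hZc.aestronglyMeasurable (Eventually.of_forall fun v => ?_)
  refine hB0 _ ?_ θ
  unfold wp
  simp

lemma krep_sub {L : ℝ} (hL : 1 ≤ L) {k : ℕ} (hk : 1 ≤ k) {CK : ℝ} {f1 f2 : ℕ → ℂ} {M : ℕ} {K1 K2 : ℝ → ℂ}
    (h1 : KRep L k CK f1 M K1) (h2 : KRep L k CK f2 M K2) (hb : ∀ n, n ≠ 0 → ‖f2 n - f1 n‖ ≤ 1) :
    KRep L k (2 * CK) (fun m => f2 m - f1 m) M (fun v => K2 v - K1 v) where
  fb := hb
  Kc := h2.Kc.sub h1.Kc
  Kb := fun v => by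
    have a1 := h1.Kb v
    have a2 := h2.Kb v
    refine (norm_sub_le _ _).trans ?_
    linarith
  rep := fun N hN θ => by
    have r1 := h1.rep N hN θ
    have r2 := h2.rep N hN θ
    have i1 := krep_int hL hk h1.Kc h1.Kb θ
    have i2 := krep_int hL hk h2.Kc h2.Kb θ
    simp_rw [sub_mul]
    rw [sum_sub_distrib, r1, r2, integral_sub i2 i1, mul_sub]

lemma DP_sub (f1 f2 : ℕ → ℂ) (M : ℕ) (t : ℝ) : DP (fun m => f2 m - f1 m) M t = DP f2 M t - DP f1 M t := by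
  unfold DP
  simp_rw [sub_mul]
  rw [sum_sub_distrib]

lemma DP_bd {f : ℕ → ℂ} (hf : ∀ n, n ≠ 0 → ‖f n‖ ≤ 1) (M : ℕ) (t : ℝ) : ‖DP f M t‖ ≤ M := by
  unfold DP
  refine (norm_sum_le _ _).trans ?_
  have h : ∀ m ∈ Icc 1 M, ‖f m * (m : ℂ) ^ (-(cl t))‖ ≤ 1 := by
    intro m hm
    rw [mem_Icc] at hm
    have hm' : 0 < m := by omega
    rw [norm_mul, Complex.norm_natCast_cpow_of_pos hm']
    have h1 := hf m (by omega)
    have h2 : (m : ℝ) ^ ((-(cl t)).re) ≤ 1 := by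
      refine Real.rpow_le_one_of_one_le_of_nonpos (by exact_mod_cast hm') ?_
      unfold cl
      simp
    calc _ ≤ 1 * 1 := mul_le_mul h1 h2 (by positivity) zero_le_one
      _ = 1 := one_mul 1
  refine (sum_le_card_nsmul _ _ _ h).trans ?_
  simp

/-- the functional equation on the line -/
lemma fe_line (t : ℝ) : XX (1 - cl t) * (starRingEnd ℂ) (riemannZeta (cl t)) = riemannZeta (cl t) := by
  have e1 : (starRingEnd ℂ) (cl t) = 1 - cl t := by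
    unfold cl
    rw [map_add, map_mul, Complex.conj_ofReal, Complex.conj_I, map_div₀, map_one, map_ofNat]
    ring
  rw [← riemannZeta_conj, e1]
  have hre : (1 - cl t).re = 1 / 2 := by
    unfold cl
    simp
    norm_num
  have h1 : 1 - cl t ≠ 1 := by
    intro h
    have := congrArg Complex.re h
    rw [hre] at this
    norm_num at this
  have := Pool.Agent.H448R2.GC.zeta_fe (1 - cl t) (by rw [hre]; norm_num) h1
  rw [← this]
  congr 1
  ring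

end

end Pool.Agent.TH817.N4_ASM
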