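import Pool.Agent.TH817.N4a.A

set_option autoImplicit false

/-!
Assembly of the twisted fourth moment: the error of the approximation.
-/

namespace Pool.Agent.TH817.N4_ASM

open Finset Filter Topology MeasureTheory Complex MonoidAlgebra
open Pool.Agent.W184.NZ Pool.Agent.TH806 Pool.Agent.TH806.N4
open Pool.Agent.H306R2.SM (om cl Yf)
open Pool.Agent.H262R4.TM (Rng Ck)
open Pool.Agent.H448R2.GC (cu cs ker XX)

noncomputable section

/-- the step of the cutoffs -/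
def ck (k : ℕ) (T : ℝ) : ℝ := 1 / 200 * Real.log T / ((k:ℝ) + 1)

/-- the lengths -/
def E1 (T : ℝ) : ℝ := (1 / 2 - 2 * (1 / 200)) * Real.log T

def E2 (T : ℝ) : ℝ := Real.log (T / (2 * Real.pi)) - E1 T - 1 / 200 * Real.log T

/-- the two sums -/
def A1 (k : ℕ) (T t : ℝ) : ℂ := cs (k + 1) (ck k T) (E1 T) (cl t)

def A2 (k : ℕ) (T t : ℝ) : ℂ := cs (k + 1) (ck k T) (E2 T) (cl t)

/-- the average of the shorter smoothings -/
def Iu (k : ℕ) (T t : ℝ) : ℝ := ∫ u in (-3:ℝ)..3, (‖cs k (ck k T) (E2 T + u + ck k T) (cl t)‖ ^ 2 +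
  ‖cs k (ck k T) (E2 T + u) (cl t)‖ ^ 2)

/-- the approximate functional equation for this `k` -/
def HA (k : ℕ) (CA T₀ : ℝ) : Prop := ∀ T : ℝ, T₀ ≤ T → ∀ t : ℝ, T / 8 ≤ t → t ≤ 8 * T →
    ‖riemannZeta (cl t) - A1 k T t - XX (1 - cl t) * (starRingEnd ℂ) (A2 k T t)‖ ^ 2 ≤
      T ^ (-(1 / 3) : ℝ) + CA / Real.log T ^ 2 * Iu k T t

/-- the content of `P_TB0` for a given `η'` -/
def HB (η' : ℝ) : Prop := ∀ (k : ℕ) (η1 c : ℝ), 2 ≤ k → 0 < η1 → η1 ≤ 1 / 100 →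
  ∃ C : ℝ, 0 < C ∧ ∀ Rs : ℕ, 1 ≤ Rs → ∀ᶠ T : ℝ in atTop, ∀ κ : ℕ, Rng T κ →
  ∀ (y a D : ℝ) (J : ℕ) (g : ℕ → DA) (φ : ℕ → ℂ → ℝ) (G : DA), MG c y J Rs a g φ G → |a| ≤ 1 / 16 →
    320 * ((Rs:ℝ) + 1) * Real.log y ≤ η' * Real.log T → 0 ≤ D → D + η1 * Real.log T ≤ 41 / 80 * Real.log T →
    ∫ t in Set.Ioi (0:ℝ), wz κ T t * (‖cs k (η1 * Real.log T / k) D (cl t)‖ ^ 2 * (ev t G).re) ≤
      C * Real.log T ^ 4 * EV J y a

lemma log2pi : 1 ≤ Real.log (2 * Real.pi) ∧ Real.log (2 * Real.pi) ≤ 2 := by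
  constructor
  · rw [Real.le_log_iff_exp_le (by positivity)]
    have := Real.exp_one_lt_d9
    have := Real.pi_gt_three
    linarith
  · rw [Real.log_le_iff_le_exp (by positivity)]
    have h1 : Real.exp 2 = Real.exp 1 * Real.exp 1 := by rw [← Real.exp_add]; norm_num
    have := Real.exp_one_gt_d9
    have := Real.pi_lt_d2
    rw [h1]; nlinarith

lemma E1_eq (T : ℝ) : E1 T = 49 / 100 * Real.log T := by unfold E1; ring

lemma E2_eq {T : ℝ} (hT : 0 < T) : E2 T = 101 / 200 * Real.log T - Real.log (2 * Real.pi) := by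
  unfold E2
  rw [E1_eq, Real.log_div hT.ne' (by positivity)]
  ring

lemma ck_pos (k : ℕ) {T : ℝ} (hL : 0 < Real.log T) : 0 < ck k T := by unfold ck; positivity

lemma ck_mul (k : ℕ) (T : ℝ) : ((k:ℝ) + 1) * ck k T = 1 / 200 * Real.log T := by
  unfold ck; field_simp

lemma A_bd {k : ℕ} {T D : ℝ} (hT : 0 < T) (hL : 0 < Real.log T) (hD : D + 1 / 200 * Real.log T ≤ Real.log T)
    (t : ℝ) : ‖cs (k + 1) (ck k T) D (cl t)‖ ≤ T := by
  rw [cf_eq (ck_pos k hL) le_rfl]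
  refine (cf_bd (ck_pos k hL) _ t).trans ((Nat.floor_le (Real.exp_pos _).le).trans ?_)
  have h1 := ck_mul k T
  have h2 : D + ((k + 1 : ℕ) : ℝ) * ck k T ≤ Real.log T := by
    push_cast; linarith
  calc Real.exp (D + ((k + 1 : ℕ) : ℝ) * ck k T) ≤ Real.exp (Real.log T) := Real.exp_le_exp.mpr h2
    _ = T := Real.exp_log hT

lemma A_cont (k : ℕ) (c D : ℝ) : Continuous fun t : ℝ => cs k c D (cl t) :=
  (Pool.Agent.H448R2.GC.M1.cs_cont k c D).comp cl_cont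

lemma small_ev : ∀ᶠ T : ℝ in atTop, 18 * Real.log T ^ 2 * T ^ (-(1 / 4) : ℝ) ≤ 1 := by
  have h1 := (isLittleO_log_rpow_rpow_atTop (2:ℝ) (show (0:ℝ) < 1 / 4 by norm_num)).def
    (show (0:ℝ) < 1 / 18 by norm_num)
  filter_upwards [h1, eventually_gt_atTop (1:ℝ)] with T h1 h2
  have h3 : 0 < Real.log T := Real.log_pos h2
  have hT0 : 0 < T := by linarith
  rw [Real.norm_eq_abs, Real.norm_eq_abs, abs_of_nonneg (by positivity), abs_of_nonneg (by positivity)] at h1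
  have h4 : Real.log T ^ 2 ≤ 1 / 18 * T ^ (1 / 4 : ℝ) := by
    calc Real.log T ^ 2 = Real.log T ^ (2:ℝ) := by norm_cast
      _ ≤ _ := h1
  rw [Real.rpow_neg hT0.le]
  have h5 : 0 < T ^ (1 / 4 : ℝ) := by positivity
  calc 18 * Real.log T ^ 2 * (T ^ (1 / 4 : ℝ))⁻¹ ≤ 18 * (1 / 18 * T ^ (1 / 4 : ℝ)) * (T ^ (1 / 4 : ℝ))⁻¹ := by gcongr
    _ = 1 := by field_simp

lemma int4 {S : Set ℝ} {f0 f1 f2 f3 : ℝ → ℝ} {a b c d : ℝ} (h0 : IntegrableOn f0 S) (h1 : IntegrableOn f1 S)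
    (h2 : IntegrableOn f2 S) (h3 : IntegrableOn f3 S) :
    ∫ t in S, (a * f0 t + b * f1 t + c * f2 t + d * f3 t) =
      a * (∫ t in S, f0 t) + b * (∫ t in S, f1 t) + c * (∫ t in S, f2 t) + d * (∫ t in S, f3 t) := by
  have j0 : IntegrableOn (fun t => a * f0 t) S := h0.const_mul _
  have j1 : IntegrableOn (fun t => b * f1 t) S := h1.const_mul _
  have j2 : IntegrableOn (fun t => c * f2 t) S := h2.const_mul _
  have j3 : IntegrableOn (fun t => d * f3 t) S := h3.const_mul _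
  have e1 := integral_add (μ := volume.restrict S) ((j0.add j1).add j2) j3
  have e2 := integral_add (μ := volume.restrict S) (j0.add j1) j2
  have e3 := integral_add (μ := volume.restrict S) j0 j1
  simp only [Pi.add_apply] at e1 e2 e3
  rw [e1, e2, e3, integral_const_mul, integral_const_mul, integral_const_mul, integral_const_mul]

/-- the difference of the two sides of the identity -/
def Df (k : ℕ) (T t : ℝ) : ℝ :=
  |PQ (riemannZeta (cl t)) (A1 k T t) (A2 k T t) - ‖riemannZeta (cl t)‖ ^ 4|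

lemma PQ_cont {z a1 a2 : ℝ → ℂ} (hz : Continuous z) (h1 : Continuous a1) (h2 : Continuous a2) :
    Continuous fun t => PQ (z t) (a1 t) (a2 t) := by
  unfold PQ
  have hc : Continuous fun t => (starRingEnd ℂ) (z t) := Complex.continuous_conj.comp hz
  fun_prop

lemma Df_pt {k : ℕ} {CA T₀ T t : ℝ} (hA : HA k CA T₀) (hT : T₀ ≤ T) (hL : 1 ≤ Real.log T) (h1 : T / 8 ≤ t)
    (h2 : t ≤ 8 * T) :
    Df k T t ≤ ‖riemannZeta (cl t)‖ ^ 2 * (9 * Real.log T * (T ^ (-(1 / 3) : ℝ) + CA / Real.log T ^ 2 * Iu k T t) +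
      3 / Real.log T * ‖A2 k T t‖ ^ 2 + 3 / Real.log T * ‖A1 k T t‖ ^ 2) := by
  have h := hA T hT t h1 h2
  set e := riemannZeta (cl t) - A1 k T t - XX (1 - cl t) * (starRingEnd ℂ) (A2 k T t) with he
  have hz : riemannZeta (cl t) = A1 k T t + XX (1 - cl t) * (starRingEnd ℂ) (A2 k T t) + e := by
    rw [he]; ring
  unfold Df
  refine (ident hz (fe_line t)).trans ?_
  refine mul_le_mul_of_nonneg_left ?_ (by positivity)
  refine (amgm (L := Real.log T) hL).trans ?_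
  have : 9 * Real.log T * ‖e‖ ^ 2 ≤ 9 * Real.log T * (T ^ (-(1 / 3) : ℝ) + CA / Real.log T ^ 2 * Iu k T t) :=
    mul_le_mul_of_nonneg_left h (by linarith)
  linarith

/-- the error of the approximation -/
theorem errE {k : ℕ} (hk : 3 ≤ k) {CA T₀ : ℝ} (hCA : 0 < CA) (hA : HA k CA T₀) {η' : ℝ} (hη0 : 0 < η')
    (hη1 : η' ≤ 1 / 200) (hB : HB η') (c : ℝ) : ∃ C : ℝ, 0 < C ∧ ∀ Rs : ℕ, 1 ≤ Rs → ∀ᶠ T : ℝ in atTop,
    ∀ κ : ℕ, Rng T κ → ∀ (y a : ℝ) (J : ℕ) (g : ℕ → DA) (φ : ℕ → ℂ → ℝ) (G : DA), MG c y J Rs a g φ G →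
    |a| ≤ 1 / 16 → 320 * ((Rs:ℝ) + 1) * Real.log y ≤ η' * Real.log T →
    (∫ t in Set.Ioi (0:ℝ), om κ (κ / T) t * (Df k T t * (ev t G).re)) ≤ C * Real.log T ^ 3 * EV J y a ∧
    (∫ t in Set.Ioi (0:ℝ), wz κ T t * (‖A1 k T t‖ ^ 2 * (ev t G).re)) ≤ C * Real.log T ^ 4 * EV J y a ∧
    (∫ t in Set.Ioi (0:ℝ), wz κ T t * (‖A2 k T t‖ ^ 2 * (ev t G).re)) ≤ C * Real.log T ^ 4 * EV J y a := by
  have hk0 : (0:ℝ) < k := by exact_mod_cast (by omega : 0 < k)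
  obtain ⟨Ca, hCa, hTa⟩ := hB (k + 1) (1 / 200) c (by omega) (by norm_num) (by norm_num)
  have hk1 : (k:ℝ) / ((k:ℝ) + 1) ≤ 1 := by
    rw [div_le_one (by positivity)]; linarith
  obtain ⟨Cb, hCb, hTb⟩ := hB k (1 / 200 * (k / ((k:ℝ) + 1))) c (by omega) (by positivity) (by linarith)
  refine ⟨108 * CA * Cb + 6 * Ca + 2 * Real.exp c + Ca, by positivity, fun Rs hRs => ?_⟩
  filter_upwards [hTa Rs hRs, hTb Rs hRs, tail_le 8, Zm_one, eventually_ge_atTop T₀,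
    eventually_ge_atTop (4 * 24 ^ 4 : ℝ), Real.tendsto_log_atTop.eventually_ge_atTop 1300, small_ev] with
    T hTa hTb hTl hZ hT0' hTb' hL1300 hsm
  intro κ hκ y a J g φ G hG ha hy
  have hT1 : (1:ℝ) ≤ T := by
    have : (1:ℝ) ≤ 4 * 24 ^ 4 := by norm_num
    linarith
  have hT0 : 0 < T := by linarith
  set L := Real.log T with hLd
  have hL1 : 1 ≤ L := by linarith
  have hL0 : 0 < L := by linarith
  have hκ1 : 1 ≤ κ := by
    have := hκ.1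
    have h2 : (0:ℝ) < κ := lt_of_lt_of_le (by positivity) this
    exact_mod_cast h2
  have hκ0 : (0:ℝ) < κ := by exact_mod_cast hκ1
  have hδ : 0 < (κ:ℝ) / T := by positivity
  have hly := log_y_pos hG.bl
  have hRs1 : (1:ℝ) ≤ Rs := by exact_mod_cast hRs
  have hyL : Real.log y ≤ L := by
    have h2 : η' * L ≤ 1 * L := mul_le_mul_of_nonneg_right (by linarith) hL0.le
    nlinarith
  set E := EV J y a with hE
  have hE0 : 0 < E := EV_pos _ _ _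
  have h1E : 1 ≤ Real.exp c * L * E := EV_ge hG.bl ha hL1 hyL
  have hL3 : L ≤ L ^ 3 := by
    have : (1:ℝ) ≤ L ^ 2 := one_le_pow₀ hL1
    calc L = L * 1 := (mul_one L).symm
      _ ≤ L * L ^ 2 := mul_le_mul_of_nonneg_left this hL0.le
      _ = L ^ 3 := by ring
  have h1E3 : 1 ≤ Real.exp c * L ^ 3 * E := by
    refine h1E.trans ?_
    have := Real.exp_pos c
    gcongr
  have hck := ck_pos k (T := T) hL0
  have hckm := ck_mul k T
  rw [← hLd] at hckm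
  have e1 := E1_eq T
  have e2 := E2_eq hT0
  rw [← hLd] at e1 e2
  obtain ⟨lp1, lp2⟩ := log2pi
  -- the multiplier
  set Gf : ℝ → ℝ := fun t => (ev t G).re with hGf
  have hG0 : ∀ t, 0 ≤ Gf t := mg_nn hG
  have hGc : Continuous Gf := mg_cont hG
  have hGB : ∀ t, Gf t ≤ T ^ (1 / 200 : ℝ) := by
    intro t
    refine (mg_le hG t).trans ?_
    rw [Real.rpow_def_of_pos hT0, ← hLd]
    apply Real.exp_le_exp.mpr
    have h2 : η' * L ≤ 1 / 200 * L := mul_le_mul_of_nonneg_right hη1 hL0.le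
    nlinarith
  have hGT : ∀ t, Gf t ≤ T := fun t => (hGB t).trans (by
    calc T ^ (1 / 200 : ℝ) ≤ T ^ (1 : ℝ) := Real.rpow_le_rpow_of_exponent_le hT1 (by norm_num)
      _ = T := Real.rpow_one T)
  -- the sums
  have hA1c : Continuous fun t => A1 k T t := A_cont _ _ _
  have hA2c : Continuous fun t => A2 k T t := A_cont _ _ _
  have hA1b : ∀ t, ‖A1 k T t‖ ≤ T := fun t => A_bd hT0 hL0 (by rw [e1, ← hLd]; linarith) t
  have hA2b : ∀ t, ‖A2 k T t‖ ≤ T := fun t => A_bd hT0 hL0 (by rw [e2, ← hLd]; linarith) t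
  have b1 : ∫ t in Set.Ioi (0:ℝ), wz κ T t * (‖A1 k T t‖ ^ 2 * Gf t) ≤ Ca * L ^ 4 * E := by
    have := hTa κ hκ y a (E1 T) J g φ G hG ha hy (by rw [e1]; positivity) (by rw [e1]; linarith)
    have ec : (1 / 200 : ℝ) * L / ((k + 1 : ℕ) : ℝ) = ck k T := by unfold ck; push_cast; rw [hLd]
    rw [ec] at this
    exact this
  have b2 : ∫ t in Set.Ioi (0:ℝ), wz κ T t * (‖A2 k T t‖ ^ 2 * Gf t) ≤ Ca * L ^ 4 * E := by
    have := hTa κ hκ y a (E2 T) J g φ G hG ha hy (by rw [e2]; linarith) (by rw [e2]; linarith)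
    have ec : (1 / 200 : ℝ) * L / ((k + 1 : ℕ) : ℝ) = ck k T := by unfold ck; push_cast; rw [hLd]
    rw [ec] at this
    exact this
  have ecb : (1 / 200 * ((k:ℝ) / ((k:ℝ) + 1))) * L / (k:ℝ) = ck k T := by
    unfold ck; rw [← hLd]; field_simp
  have hkk : (1 / 200 * ((k:ℝ) / ((k:ℝ) + 1))) * L = k * ck k T := by
    rw [← ecb]; field_simp
  have hkL : k * ck k T ≤ 1 / 200 * L := by linarith
  have hck1 : ck k T + k * ck k T = 1 / 200 * L := by linarith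
  have b3 : ∀ u : ℝ, -3 ≤ u → u ≤ 3 →
      ∫ t in Set.Ioi (0:ℝ), wz κ T t * (‖cs k (ck k T) (E2 T + u + ck k T) (cl t)‖ ^ 2 * Gf t) ≤ Cb * L ^ 4 * E := by
    intro u hu1 hu2
    have := hTb κ hκ y a (E2 T + u + ck k T) J g φ G hG ha hy (by rw [e2]; linarith)
      (by rw [hkk, e2]; linarith)
    rw [ecb] at this
    exact this
  have b4 : ∀ u : ℝ, -3 ≤ u → u ≤ 3 →
      ∫ t in Set.Ioi (0:ℝ), wz κ T t * (‖cs k (ck k T) (E2 T + u) (cl t)‖ ^ 2 * Gf t) ≤ Cb * L ^ 4 * E := by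
    intro u hu1 hu2
    have := hTb κ hκ y a (E2 T + u) J g φ G hG ha hy (by rw [e2]; linarith)
      (by rw [hkk, e2]; linarith)
    rw [ecb] at this
    exact this
  obtain ⟨iI, bI⟩ := eint (k := k) (κ := κ) (T := T) (c := ck k T) (D := E2 T) (by omega) hck hT0 hκ1 hG0 hGB hGc b3 b4
  -- integrability
  have hΦi : IntegrableOn (fun t => wz κ T t) (Set.Ioi 0) := by
    have := wz_int κ hδ (f := fun _ => 1) (C := 1) continuous_const (fun t => by simp)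
    simp only [mul_one] at this
    exact this
  have hΦ0 : ∀ t ∈ Set.Ioi (0:ℝ), 0 ≤ wz κ T t := fun t ht => wz_nonneg κ hT0 (le_of_lt ht)
  have i0 : IntegrableOn (fun t => wz κ T t * Gf t) (Set.Ioi 0) := by
    refine wz_int κ hδ (C := T ^ (1 / 200 : ℝ)) hGc fun t => ?_
    rw [abs_of_nonneg (hG0 t)]
    exact hGB t
  have i1 : IntegrableOn (fun t => wz κ T t * (‖A1 k T t‖ ^ 2 * Gf t)) (Set.Ioi 0) := by
    refine wz_int κ hδ (C := T ^ 2 * T) ((hA1c.norm.pow 2).mul hGc) fun t => ?_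
    rw [abs_of_nonneg (mul_nonneg (by positivity) (hG0 t))]
    exact mul_le_mul (pow_le_pow_left₀ (norm_nonneg _) (hA1b t) 2) (hGT t) (hG0 t) (by positivity)
  have i2 : IntegrableOn (fun t => wz κ T t * (‖A2 k T t‖ ^ 2 * Gf t)) (Set.Ioi 0) := by
    refine wz_int κ hδ (C := T ^ 2 * T) ((hA2c.norm.pow 2).mul hGc) fun t => ?_
    rw [abs_of_nonneg (mul_nonneg (by positivity) (hG0 t))]
    exact mul_le_mul (pow_le_pow_left₀ (norm_nonneg _) (hA2b t) 2) (hGT t) (hG0 t) (by positivity)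
  have iI' : IntegrableOn (fun t => wz κ T t * (Iu k T t * Gf t)) (Set.Ioi 0) := iI
  have bI' : ∫ t in Set.Ioi (0:ℝ), wz κ T t * (Iu k T t * Gf t) ≤ 12 * (Cb * L ^ 4 * E) := bI
  have hIu0 : ∀ t, 0 ≤ Iu k T t := fun t => by
    unfold Iu
    exact intervalIntegral.integral_nonneg (by norm_num) fun u _ => by positivity
  -- the tail
  set F : ℝ → ℝ := fun t => Df k T t * Gf t with hF
  have hzc := Pool.Agent.H262R4.TM.TTW.zeta_cont
  have hDc : Continuous fun t => Df k T t := by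
    unfold Df
    exact ((PQ_cont hzc hA1c hA2c).sub (hzc.norm.pow 4)).abs
  have hD0 : ∀ t, 0 ≤ Df k T t := fun t => abs_nonneg _
  have hFc : Continuous F := hDc.mul hGc
  have hF0 : ∀ t, 0 ≤ F t := fun t => mul_nonneg (hD0 t) (hG0 t)
  have hF1 : ∀ t, 0 ≤ t → F t ≤ (2 * 24 ^ 4 * T ^ 3) * (1 + t) ^ 8 := by
    intro t ht
    have h1 := Pool.Agent.H262R4.TM.TTW.zeta_cl_bound t ht
    set q := 1 + t with hq
    have hq1 : 1 ≤ q := by linarith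
    have h2 : ‖riemannZeta (cl t)‖ ^ 2 ≤ 24 ^ 2 * q ^ 4 := by
      calc _ ≤ (24 * q ^ 2) ^ 2 := pow_le_pow_left₀ (norm_nonneg _) h1 2
        _ = _ := by ring
    have h4 : ‖riemannZeta (cl t)‖ ^ 4 ≤ 24 ^ 4 * q ^ 8 := by
      calc _ ≤ (24 * q ^ 2) ^ 4 := pow_le_pow_left₀ (norm_nonneg _) h1 4
        _ = _ := by ring
    have h5 : Df k T t ≤ 8 * T ^ 2 * (24 ^ 2 * q ^ 4) + 24 ^ 4 * q ^ 8 := by
      unfold Df
      have h6 := crude (z := riemannZeta (cl t)) (hA1b t) (hA2b t)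
      have h7 : |PQ (riemannZeta (cl t)) (A1 k T t) (A2 k T t) - ‖riemannZeta (cl t)‖ ^ 4| ≤
          |PQ (riemannZeta (cl t)) (A1 k T t) (A2 k T t)| + |‖riemannZeta (cl t)‖ ^ 4| := abs_sub _ _
      rw [abs_of_nonneg (by positivity : (0:ℝ) ≤ ‖riemannZeta (cl t)‖ ^ 4)] at h7
      have h8 : 8 * T ^ 2 * ‖riemannZeta (cl t)‖ ^ 2 ≤ 8 * T ^ 2 * (24 ^ 2 * q ^ 4) := by gcongr
      linarith
    have hq48 : q ^ 4 ≤ q ^ 8 := pow_le_pow_right₀ hq1 (by norm_num)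
    have hT21 : 1 ≤ T ^ 2 := one_le_pow₀ hT1
    have h9 : Df k T t ≤ 2 * 24 ^ 4 * T ^ 2 * q ^ 8 := by
      have a1 : 8 * T ^ 2 * (24 ^ 2 * q ^ 4) ≤ 24 ^ 4 * T ^ 2 * q ^ 8 := by
        calc 8 * T ^ 2 * (24 ^ 2 * q ^ 4) = (8 * 24 ^ 2) * T ^ 2 * q ^ 4 := by ring
          _ ≤ 24 ^ 4 * T ^ 2 * q ^ 8 := by gcongr; norm_num
      have a2 : 24 ^ 4 * q ^ 8 ≤ 24 ^ 4 * T ^ 2 * q ^ 8 := by
        have : 24 ^ 4 * q ^ 8 * 1 ≤ 24 ^ 4 * q ^ 8 * T ^ 2 := mul_le_mul_of_nonneg_left hT21 (by positivity)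
        linarith
      linarith
    calc F t ≤ (2 * 24 ^ 4 * T ^ 2 * q ^ 8) * T := mul_le_mul h9 (hGT t) (hG0 t) (by positivity)
      _ = _ := by ring
  obtain ⟨hI, hup, _⟩ := hTl κ hκ (2 * 24 ^ 4 * T ^ 3) F (by positivity) hFc hF0 hF1
  have htail : 2 * (2 * 24 ^ 4 * T ^ 3) * T ^ (-10 : ℝ) ≤ 1 := by
    have h1 : T ^ 3 * T ^ (-10 : ℝ) ≤ T ^ (-1 : ℝ) := by
      rw [← Real.rpow_natCast T 3, ← Real.rpow_add hT0]
      exact Real.rpow_le_rpow_of_exponent_le hT1 (by norm_num)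
    rw [Real.rpow_neg_one] at h1
    calc 2 * (2 * 24 ^ 4 * T ^ 3) * T ^ (-10 : ℝ) = 4 * 24 ^ 4 * (T ^ 3 * T ^ (-10 : ℝ)) := by ring
      _ ≤ 4 * 24 ^ 4 * T⁻¹ := by gcongr
      _ ≤ T * T⁻¹ := by gcongr
      _ = 1 := by field_simp
  -- the main part
  have hsub : Set.Ioc (T / 8) (8 * T) ⊆ Set.Ioi (0:ℝ) := fun t ht => lt_trans (by positivity) ht.1
  set H : ℝ → ℝ := fun t => 9 * L * T ^ (-(1 / 3) : ℝ) * (wz κ T t * Gf t) +
    9 * CA / L * (wz κ T t * (Iu k T t * Gf t)) + 3 / L * (wz κ T t * (‖A2 k T t‖ ^ 2 * Gf t)) +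
    3 / L * (wz κ T t * (‖A1 k T t‖ ^ 2 * Gf t)) with hH
  have hHi : IntegrableOn H (Set.Ioi 0) :=
    (((i0.const_mul _).add (iI'.const_mul _)).add (i2.const_mul _)).add (i1.const_mul _)
  have hH0 : ∀ t ∈ Set.Ioi (0:ℝ), 0 ≤ H t := by
    intro t ht
    have a1 := hΦ0 t ht
    have a2 := hG0 t
    have a3 := hIu0 t
    have a4 : 0 ≤ T ^ (-(1 / 3) : ℝ) := Real.rpow_nonneg hT0.le _
    simp only [hH]
    have s1 : 0 ≤ 9 * L * T ^ (-(1 / 3) : ℝ) * (wz κ T t * Gf t) :=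
      mul_nonneg (mul_nonneg (by linarith) a4) (mul_nonneg a1 a2)
    have s2 : 0 ≤ 9 * CA / L * (wz κ T t * (Iu k T t * Gf t)) :=
      mul_nonneg (by positivity) (mul_nonneg a1 (mul_nonneg a3 a2))
    have s3 : 0 ≤ 3 / L * (wz κ T t * (‖A2 k T t‖ ^ 2 * Gf t)) :=
      mul_nonneg (by positivity) (mul_nonneg a1 (mul_nonneg (by positivity) a2))
    have s4 : 0 ≤ 3 / L * (wz κ T t * (‖A1 k T t‖ ^ 2 * Gf t)) :=
      mul_nonneg (by positivity) (mul_nonneg a1 (mul_nonneg (by positivity) a2))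
    linarith
  have hpt : ∀ t ∈ Set.Ioc (T / 8) (8 * T), om κ (κ / T) t * F t ≤ H t := by
    intro t ht
    have ht0 : (0:ℝ) < t := hsub ht
    have h1 := Df_pt hA hT0' (by rw [← hLd]; exact hL1) ht.1.le ht.2
    rw [← hLd] at h1
    have a1 := om_nn κ hδ ht0.le
    have h2 := mul_le_mul_of_nonneg_left (mul_le_mul_of_nonneg_right h1 (hG0 t)) a1
    refine h2.trans (le_of_eq ?_)
    simp only [hH]
    unfold wz
    field_simp
  have hmain : (∫ t in Set.Ioc (T / 8) (8 * T), om κ (κ / T) t * F t) ≤ ∫ t in Set.Ioi (0:ℝ), H t := by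
    calc _ ≤ ∫ t in Set.Ioc (T / 8) (8 * T), H t :=
          setIntegral_mono_on (hI.mono_set hsub) (hHi.mono_set hsub) measurableSet_Ioc hpt
      _ ≤ _ := by
          refine setIntegral_mono_set hHi ?_ hsub.eventuallyLE
          exact (ae_restrict_iff' measurableSet_Ioi).mpr (Eventually.of_forall hH0)
  have hHe : ∫ t in Set.Ioi (0:ℝ), H t = 9 * L * T ^ (-(1 / 3) : ℝ) * (∫ t in Set.Ioi (0:ℝ), wz κ T t * Gf t) +
      9 * CA / L * (∫ t in Set.Ioi (0:ℝ), wz κ T t * (Iu k T t * Gf t)) +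
      3 / L * (∫ t in Set.Ioi (0:ℝ), wz κ T t * (‖A2 k T t‖ ^ 2 * Gf t)) +
      3 / L * (∫ t in Set.Ioi (0:ℝ), wz κ T t * (‖A1 k T t‖ ^ 2 * Gf t)) := by
    exact int4 i0 iI' i2 i1
  have c0 : 9 * L * T ^ (-(1 / 3) : ℝ) * (∫ t in Set.Ioi (0:ℝ), wz κ T t * Gf t) ≤ 1 := by
    have h1 : ∫ t in Set.Ioi (0:ℝ), wz κ T t * Gf t ≤ T ^ (1 / 200 : ℝ) * (2 * L) := by
      calc _ ≤ ∫ t in Set.Ioi (0:ℝ), T ^ (1 / 200 : ℝ) * wz κ T t := by
            refine setIntegral_mono_on i0 (hΦi.const_mul _) measurableSet_Ioi fun t ht => ?_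
            rw [mul_comm]
            exact mul_le_mul_of_nonneg_right (hGB t) (hΦ0 t ht)
        _ = T ^ (1 / 200 : ℝ) * ∫ t in Set.Ioi (0:ℝ), wz κ T t := integral_const_mul _ _
        _ ≤ _ := mul_le_mul_of_nonneg_left (hZ κ hκ) (by positivity)
    have h2 : T ^ (-(1 / 3) : ℝ) * T ^ (1 / 200 : ℝ) ≤ T ^ (-(1 / 4) : ℝ) := by
      rw [← Real.rpow_add hT0]
      exact Real.rpow_le_rpow_of_exponent_le hT1 (by norm_num)
    calc _ ≤ 9 * L * T ^ (-(1 / 3) : ℝ) * (T ^ (1 / 200 : ℝ) * (2 * L)) :=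
          mul_le_mul_of_nonneg_left h1 (by positivity)
      _ = 18 * L ^ 2 * (T ^ (-(1 / 3) : ℝ) * T ^ (1 / 200 : ℝ)) := by ring
      _ ≤ 18 * L ^ 2 * T ^ (-(1 / 4) : ℝ) := mul_le_mul_of_nonneg_left h2 (by positivity)
      _ ≤ 1 := hsm
  have cI : 9 * CA / L * (∫ t in Set.Ioi (0:ℝ), wz κ T t * (Iu k T t * Gf t)) ≤ 108 * CA * Cb * L ^ 3 * E := by
    calc _ ≤ 9 * CA / L * (12 * (Cb * L ^ 4 * E)) := mul_le_mul_of_nonneg_left bI' (by positivity)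
      _ = _ := by field_simp; ring
  have c2 : 3 / L * (∫ t in Set.Ioi (0:ℝ), wz κ T t * (‖A2 k T t‖ ^ 2 * Gf t)) ≤ 3 * Ca * L ^ 3 * E := by
    calc _ ≤ 3 / L * (Ca * L ^ 4 * E) := mul_le_mul_of_nonneg_left b2 (by positivity)
      _ = _ := by field_simp
  have c1 : 3 / L * (∫ t in Set.Ioi (0:ℝ), wz κ T t * (‖A1 k T t‖ ^ 2 * Gf t)) ≤ 3 * Ca * L ^ 3 * E := by
    calc _ ≤ 3 / L * (Ca * L ^ 4 * E) := mul_le_mul_of_nonneg_left b1 (by positivity)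
      _ = _ := by field_simp
  have hec := Real.exp_pos c
  have hLE : 0 ≤ L ^ 3 * E := by positivity
  have hLE4 : 0 ≤ L ^ 4 * E := by positivity
  have hCC : 0 ≤ 108 * CA * Cb + 6 * Ca + 2 * Real.exp c := by positivity
  refine ⟨?_, ?_, ?_⟩
  · have hfin : (∫ t in Set.Ioi (0:ℝ), om κ (κ / T) t * F t) ≤
        (108 * CA * Cb * L ^ 3 * E + 6 * Ca * L ^ 3 * E + 1) + 1 := by
      rw [hHe] at hmain
      linarith
    refine hfin.trans ?_
    have e3 : (108 * CA * Cb + 6 * Ca + 2 * Real.exp c + Ca) * L ^ 3 * E =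
      108 * CA * Cb * L ^ 3 * E + 6 * Ca * L ^ 3 * E + 2 * (Real.exp c * L ^ 3 * E) + Ca * (L ^ 3 * E) := by ring
    rw [e3]
    have := mul_nonneg hCa.le hLE
    linarith
  · refine b1.trans ?_
    have e3 : (108 * CA * Cb + 6 * Ca + 2 * Real.exp c + Ca) * L ^ 4 * E =
      (108 * CA * Cb + 6 * Ca + 2 * Real.exp c) * (L ^ 4 * E) + Ca * L ^ 4 * E := by ring
    rw [e3]
    have := mul_nonneg hCC hLE4
    linarith
  · refine b2.trans ?_
    have e3 : (108 * CA * Cb + 6 * Ca + 2 * Real.exp c + Ca) * L ^ 4 * E =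
      (108 * CA * Cb + 6 * Ca + 2 * Real.exp c) * (L ^ 4 * E) + Ca * L ^ 4 * E := by ring
    rw [e3]
    have := mul_nonneg hCC hLE4
    linarith

end

end Pool.Agent.TH817.N4_ASM
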